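import Pool.Agent.R806.MC.Conv

/-!
# Conjugacy of minimal homeomorphisms of the Cantor space is bi-reducible with graph isomorphism

The definitions are in `Pool/Agent/R806/MC/Defs.lean`.

Proof.  Let `Γ_n` be the group of permutations of `ℕ` fixing all `i ≥ n` and `K = ∏ Γ_n`.  Over an
odometer with scales `M_n` we take a cocycle with values in `K` which is, at the positions of exact
level `n` of a block of length `M_{n+1}`, given by a list `k_{n,0} = 1, …, k_{n,r-1} = 1` of elements
of `K` in which every pair of elements of the first `n + 1` coordinates occurs consecutively.  For a
graph `G` the display at a position of level `n` with state `κ` is the table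
`F_G(κ_n)(i, j) = [G(i, j) and κ_n⁻¹ i < κ_n⁻¹ j]`, `F_G(κ_n)(i, i) = [κ_n⁻¹ i is even]`.  The orbit
closure `X_G` of the point with odometer coordinate `0`, state `1` and display `F_G(1)` is minimal.
Left multiplication by an element of `K` converging to an isomorphism gives a conjugacy.
Conversely a conjugacy preserves the odometer coordinate up to an integer (asymptotic pairs), so it
acts on the states by left multiplication with some `c ∈ K`, and continuity of the display forces
`c_n` to converge to an isomorphism.  The sets `X_G` are identified with the Cantor space by the
splitting levels of their points, which gives a Borel map into the homeomorphisms.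

For the other direction a homeomorphism is coded by the graph of disjointness on the nonempty proper
clopen sets, with a path from `A` to `T(A)` attached for each clopen set `A`.
-/

set_option autoImplicit false

namespace Pool.Agent.Results.MP_f7d718_lc.MinimalConjugacy

open Pool.Agent.R806.MC

/-- Isomorphism of countable graphs (a maximal `S_∞`-action) is Borel bi-reducible with topological
conjugacy of minimal homeomorphisms of the Cantor space. -/
theorem result :
    BiRed GraphIso (fun S T : {T : Cantor ≃ₜ Cantor // IsMinimal T} => TopConj S.1 T.1) :=
  bireducible_class IsMinimal fun _ h => h

end Pool.Agent.Results.MP_f7d718_lc.MinimalConjugacy
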