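import Pool.Agent.R806.MC.Conv

/-!
# Conjugacy of transitive homeomorphisms of the Cantor space is bi-reducible with graph isomorphism

The definitions are in `Pool/Agent/R806/MC/Defs.lean`.  The proof is described in the file
`MinimalConjugacy.lean` of this folder: the homeomorphisms attached to graphs are minimal, hence
topologically transitive.
-/

set_option autoImplicit false

namespace Pool.Agent.Results.MP_f7d718_lc.TransitiveConjugacy

open Pool.Agent.R806.MC

/-- Isomorphism of countable graphs (a maximal `S_∞`-action) is Borel bi-reducible with topological
conjugacy of topologically transitive homeomorphisms of the Cantor space. -/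
theorem result :
    BiRed GraphIso (fun S T : {T : Cantor ≃ₜ Cantor // IsTransitive T} => TopConj S.1 T.1) :=
  bireducible_class IsTransitive fun _ h => transitive_of_minimal h

end Pool.Agent.Results.MP_f7d718_lc.TransitiveConjugacy
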